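import Pool.Agent.Helper78.LM.Goals

/-!
# Project LM, packet RPS: machines without stack are simulated by randomized algorithms
-/

namespace Pool.Agent.Helper39.LM

open Pool.Agent.Helper78.LM Pool.Agent.Helper81.CC Pool.Agent.Helper51.ZP Matrix Computability
open Pool.Agent.Helper31.TMSim Pool.Agent.Helper83.CL

/-- the list of the coordinates -/
def mlist {m : ℕ} (v : Fin m → ZMod 2) : List Bool := List.ofFn fun i => z2b (v i)

theorem toVec_eq (m : ℕ) (l : List Bool) (i : Fin m) : toVec m l i = b2z (l.getD i false) := rfl

theorem par_dotv : ∀ (m : ℕ) (row : List Bool) (v : Fin m → ZMod 2),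
    par (List.zipWith (fun a b => a && b) row (mlist v)) = z2b (toVec m row ⬝ᵥ v) := by
  intro m row v
  rw [par_eq]
  congr 1
  induction m generalizing row with
  | zero => simp [mlist, dotProduct]
  | succ m ih =>
    cases row with
    | nil =>
      have : toVec (m + 1) [] = 0 := by
        funext i
        simp [toVec]
      rw [this]
      simp
    | cons r row =>
      have h := ih row (fun i => v i.succ)
      simp only [mlist, List.ofFn_succ, List.zipWith_cons_cons, List.map_cons, List.sum_cons] at h ⊢
      rw [h]
      simp only [dotProduct, Fin.sum_univ_succ]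
      congr 1
      rw [b2z_and, b2z_z2b]
      rfl

/-- the states of the simulation: the number of the stage, the state, the memory, the answer -/
abbrev St := ℕ × ℕ × List Bool × Bool

section
variable (A : LinMachine)

/-- the new memory -/
def nmem (x : List Bool) (s : St) (b : Bool) : List Bool :=
  (List.range (A.dim x)).map fun i =>
    xor (par (List.zipWith (fun a b => a && b) (A.row (x, s.1, i)) s.2.2.1))
      ((A.vec (x, s.1, s.2.1, 0, b, s.2.2.2)).getD i false)

/-- the value of the form -/
def nval (x : List Bool) (s : St) (b : Bool) : Bool :=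
  par (List.zipWith (fun a b => a && b) (A.form (x, s.1)) (nmem A x s b))

/-- one stage -/
def sstep (x : List Bool) (s : St) (b : Bool) : Option St :=
  if (A.reads (x, s.1) || !(nval A x s b)) = true then
    some (s.1 + 1, A.next (x, s.1, s.2.1, 0, b, s.2.2.2), nmem A x s b, nval A x s b)
  else none

/-- one stage, with failure -/
def ostep (x : List Bool) (s : Option St) (b : Bool) : Option St := s.bind fun s => sstep A x s b

/-- the state of the simulation -/
def enc (x : List Bool) (t : ℕ) (c : Conf (A.dim x)) : St := (t, c.q, mlist c.v, c.o)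

variable {A}

theorem nmem_enc {x : List Bool} {t : ℕ} {b : Bool} {c : Conf (A.dim x)} (hc : c.st = []) :
    nmem A x (enc A x t c) b = mlist (A.mem x t b c) := by
  have hv : A.view x t b c = (x, t, c.q, 0, b, c.o) := by simp [LinMachine.view, hc]
  apply List.ext_getElem
  · simp [nmem, mlist]
  · intro i h1 h2
    simp only [nmem, enc, mlist, List.getElem_map, List.getElem_range, List.getElem_ofFn]
    have e := par_dotv (A.dim x) (A.row (x, t, i)) c.v
    rw [mlist] at e
    have hi : i < A.dim x := by simpa [nmem] using h1
    have e2 : A.mem x t b c ⟨i, hi⟩ = (toVec (A.dim x) (A.row (x, t, i)) ⬝ᵥ c.v) +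
      toVec (A.dim x) (A.vec (A.view x t b c)) ⟨i, hi⟩ := rfl
    rw [e, e2, z2b_add, hv]
    congr 1
    rw [toVec_eq, z2b_b2z]

theorem nval_enc {x : List Bool} {t : ℕ} {b : Bool} {c : Conf (A.dim x)} (hc : c.st = []) :
    nval A x (enc A x t c) b = z2b (A.value x t b c) := by
  rw [nval, nmem_enc hc, par_dotv]
  rfl

theorem sstep_enc (hp : ∀ z, A.push z = []) {x : List Bool} {t : ℕ} {b : Bool}
    {c : Conf (A.dim x)} (hc : c.st = []) :
    sstep A x (enc A x t c) b = (A.step x t b c).map (enc A x (t + 1)) ∧
      ∀ c', A.step x t b c = some c' → c'.st = [] := by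
  have hv : A.view x t b c = (x, t, c.q, 0, b, c.o) := by simp [LinMachine.view, hc]
  have hz : ∀ z : ZMod 2, (z = 0 ↔ z2b z = false) := by decide
  by_cases h : A.reads (x, t) = true ∨ A.value x t b c = 0
  · have h' : (A.reads (x, t) || !(nval A x (enc A x t c) b)) = true := by
      rw [nval_enc hc]
      rcases h with h | h
      · simp [h]
      · rw [(hz _).1 h]
        simp
    constructor
    · rw [sstep, LinMachine.step, if_pos h]
      have e1 : (enc A x t c).1 = t := rfl
      rw [e1, if_pos h', nval_enc hc, nmem_enc hc]
      simp only [Option.map_some, enc, hv]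
      rfl
    · intro c' h1
      rw [LinMachine.step, if_pos h] at h1
      have h2 := Option.some.inj h1
      rw [← h2]
      simp [hp, hc]
  · have h' : ¬ (A.reads (x, t) || !(nval A x (enc A x t c) b)) = true := by
      rw [nval_enc hc]
      rw [not_or] at h
      intro h3
      rw [Bool.or_eq_true] at h3
      rcases h3 with h3 | h3
      · exact h.1 h3
      · apply h.2
        rw [hz]
        simpa using h3
    constructor
    · rw [sstep, LinMachine.step, if_neg h]
      have e1 : (enc A x t c).1 = t := rfl
      rw [e1, if_neg h']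
      rfl
    · intro c' h1
      rw [LinMachine.step, if_neg h] at h1
      cases h1

theorem foldl_none (x : List Bool) (ρ : List Bool) : ρ.foldl (ostep A x) none = none := by
  induction ρ with
  | nil => rfl
  | cons b ρ ih => exact ih

theorem foldl_enc (hp : ∀ z, A.push z = []) {x : List Bool} : ∀ (ρ : List Bool) (t : ℕ)
    (c : Conf (A.dim x)), c.st = [] →
    ρ.foldl (ostep A x) (some (enc A x t c)) = (A.run x t ρ c).map (enc A x (t + ρ.length)) ∧
      ∀ c', A.run x t ρ c = some c' → c'.st = [] := by
  intro ρ
  induction ρ with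
  | nil =>
    intro t c hc
    refine ⟨rfl, fun c' h => ?_⟩
    rw [LinMachine.run] at h
    rw [← Option.some.inj h]
    exact hc
  | cons b ρ ih =>
    intro t c hc
    obtain ⟨h1, h2⟩ := sstep_enc hp (t := t) (b := b) hc
    rw [List.foldl_cons, LinMachine.run]
    have e : ostep A x (some (enc A x t c)) b = sstep A x (enc A x t c) b := rfl
    rw [e, h1]
    cases hs : A.step x t b c with
    | none =>
      refine ⟨foldl_none x ρ, fun c' h => ?_⟩
      cases h
    | some c1 =>
      obtain ⟨h3, h4⟩ := ih (t + 1) c1 (h2 c1 hs)
      simp only [Option.map_some, Option.bind_some]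
      rw [h3]
      refine ⟨?_, h4⟩
      rw [List.length_cons, Nat.add_assoc, Nat.add_comm 1]

variable (A)

/-- the simulating algorithm -/
def simF (z : List Bool × List Bool) : Bool :=
  (z.2.foldl (ostep A z.1) (some (0, 0, List.replicate (A.dim z.1) false, false))).elim false
    fun s => decide (s.2.1 = 1)

variable {A}

theorem simF_iff (hp : ∀ z, A.push z = []) (x ρ : List Bool) :
    simF A (x, ρ) = true ↔ A.Accepts x ρ := by
  have e0 : (0, 0, List.replicate (A.dim x) false, false) =
      enc A x 0 ⟨0, [], 0, false⟩ := by
    simp [enc, mlist, z2b]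
  obtain ⟨h1, h2⟩ := foldl_enc hp (x := x) ρ 0 ⟨0, [], 0, false⟩ rfl
  rw [simF]
  simp only
  rw [e0, h1, LinMachine.Accepts]
  cases hr : A.run x 0 ρ ⟨0, [], 0, false⟩ with
  | none => simp
  | some c =>
    have := h2 c hr
    simp [enc, this]

theorem PT_simF (A : LinMachine) : PolyTime (simF A) := by
  have hnext : PolyTime A.next := ⟨scomp_of_polyTimeComputable A.next_poly⟩
  have hvec : PolyTime A.vec := ⟨scomp_of_polyTimeComputable A.vec_poly⟩
  have hrow : PolyTime A.row := ⟨scomp_of_polyTimeComputable A.row_poly⟩
  have hform : PolyTime A.form := ⟨scomp_of_polyTimeComputable A.form_poly⟩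
  have hreads : PolyTime A.reads := ⟨scomp_of_polyTimeComputable A.reads_poly⟩
  have hdim : PolyTime (fun x : List Bool => A.dim x) := PT_eval A.m (by fun_prop)
  have hnm : PolyTime (fun z : List Bool × St × Bool => nmem A z.1 z.2.1 z.2.2) := by
    unfold nmem
    refine PolyTime.list_map (f := fun (z : List Bool × St × Bool) (i : ℕ) =>
      xor (par (List.zipWith (fun a b => a && b) (A.row (z.1, z.2.1.1, i)) z.2.1.2.2.1))
      ((A.vec (z.1, z.2.1.1, z.2.1.2.1, 0, z.2.2, z.2.1.2.2.2)).getD i false)) (by fun_prop) ?_
    refine PolyTime.xor (PT_par ?_) (by fun_prop)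
    exact PolyTime.zipWith (f := fun _ a b => a && b) (by fun_prop) (by fun_prop) (by fun_prop)
  have hnv : PolyTime (fun z : List Bool × St × Bool => nval A z.1 z.2.1 z.2.2) := by
    unfold nval
    refine PT_par ?_
    exact PolyTime.zipWith (f := fun _ a b => a && b) (by fun_prop) (by fun_prop) hnm
  have hst : PolyTime (fun z : List Bool × St × Bool => sstep A z.1 z.2.1 z.2.2) := by
    unfold sstep
    refine PolyTime.ite (by fun_prop) (PolyTime.some ?_) (by fun_prop)
    exact PolyTime.pair (by fun_prop) (PolyTime.pair (by fun_prop) (PolyTime.pair hnm hnv))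
  have hfold : PolyTime (fun z : List Bool × List Bool => z.2.foldl (ostep A z.1)
      (some (0, 0, List.replicate (A.dim z.1) false, false))) := by
    refine PolyTime.foldl_add (α := List Bool × List Bool) (l := fun z => z.2)
      (s0 := fun z => some (0, 0, List.replicate (A.dim z.1) false, false))
      (step := fun z s b => ostep A z.1 s b) (by fun_prop) (by fun_prop) ?_
      (C := fun z => 2 * A.w.eval z.1.length + 4 * A.dim z.1 + 20) ?_ ?_
    · unfold ostep
      refine PolyTime.option_bind (o := fun z : (List Bool × List Bool) × Option St × Bool => z.2.1)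
        (g := fun z s => sstep A z.1.1 s z.2.2) (by fun_prop) ?_
      exact PolyTime.comp (g := fun z : List Bool × St × Bool => sstep A z.1 z.2.1 z.2.2) hst
        (f := fun z : ((List Bool × List Bool) × Option St × Bool) × St =>
          (z.1.1.1, z.2, z.1.2.2)) (by fun_prop)
    · have hw : PolyTime (fun z : List Bool × List Bool => A.w.eval z.1.length) :=
        PT_eval A.w (by fun_prop)
      have hd : PolyTime (fun z : List Bool × List Bool => A.dim z.1) :=
        PolyTime.comp hdim (by fun_prop)
      exact (((PBd.const 2).mul (PBd.nat hw)).add ((PBd.const 4).mul (PBd.nat hd))).add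
        (PBd.const 20)
    · rintro z s b -
      cases s with
      | none => simp [ostep]
      | some s =>
        obtain ⟨t, q, v, o⟩ := s
        show sz (sstep A z.1 (t, q, v, o) b) ≤ _
        unfold sstep
        split_ifs
        · have h1 := A.next_lt (z.1, t, q, 0, b, o)
          have h2 := sz_bools (nmem A z.1 (t, q, v, o) b)
          have h3 : (nmem A z.1 (t, q, v, o) b).length = A.dim z.1 := by simp [nmem]
          have h4 := sz_bool (nval A z.1 (t, q, v, o) b)
          rw [h3] at h2
          simp only [sz_some, sz_pair, sz_nat] at h1 ⊢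
          omega
        · simp
          omega
  unfold simF
  exact PolyTime.option_elim (f := fun _ => false) (g := fun _ s => decide (s.2.1 = 1)) hfold
    (by fun_prop) (by fun_prop)

end

/-- **RPS.** -/
theorem rps : RpsStmt := by
  rintro k L ⟨A, hp, -, -, h1, h2⟩
  refine ⟨⟨simF A, machine_of_PT (PT_simF A), A.T⟩, ?_, ?_⟩
  · intro x hx
    refine (h1 x hx).trans (le_of_eq ?_)
    congr 1
    refine Nat.card_congr (Equiv.subtypeEquivRight fun r => ?_)
    exact (simF_iff hp x (List.ofFn r)).symm
  · intro x hx r
    by_contra h
    rw [Bool.not_eq_false] at h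
    have h3 := h2 x hx
    have h4 := (simF_iff hp x (List.ofFn r)).1 h
    have : Nonempty {ρ : Fin (A.stages x) → Bool // A.Accepts x (List.ofFn ρ)} := ⟨⟨r, h4⟩⟩
    exact (Nat.card_pos (α := {ρ : Fin (A.stages x) → Bool // A.Accepts x (List.ofFn ρ)})).ne' h3

end Pool.Agent.Helper39.LM
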